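import Mathlib
import Pool.Agent.H50.Bombieri2

open Polynomial

namespace Pool.Agent.Results.MP_6d4084_an.BombieriSharp

/-- Maximum modulus of `q` on the closed unit disk. -/
noncomputable def diskNorm (q : ℂ[X]) : ℝ :=
  sSup ((fun z : ℂ => ‖q.eval z‖) '' Metric.closedBall (0 : ℂ) 1)

/-- The Bombieri supremum norm: for `p` of degree `n` with coefficients `a_j`,
the maximum over `0 ≤ j ≤ n` of `|a_j| / binom(n,j)`. -/
noncomputable def bombieriNorm (p : ℂ[X]) : ℝ :=
  ⨆ j : Fin (p.natDegree + 1), ‖p.coeff j‖ / (p.natDegree.choose j : ℝ)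

/-- All the ratios `‖q‖ / [p]` with `p` monic of degree `n` and `q` a monic divisor of `p`. -/
def ratios (n : ℕ) : Set ℝ :=
  {r | ∃ p q : ℂ[X], p.Monic ∧ p.natDegree = n ∧ q.Monic ∧ q ∣ p ∧
    r = diskNorm q / bombieriNorm p}

/-- `S_n`, the supremum of those ratios. -/
noncomputable def S (n : ℕ) : ℝ := sSup (ratios n)

/-- `K = M(1 + |x + 1|)`. -/
noncomputable def K : ℝ :=
  Real.exp ((2 * Real.pi)⁻¹ *
    ∫ t in (0 : ℝ)..(2 * Real.pi), Real.log (1 + ‖1 + Complex.exp (t * Complex.I)‖))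

open Pool.Agent.H50.Bombieri

lemma K_eq : K = Real.exp lam := by
  rw [K, lam, Real.circleAverage_def]
  simp [circleMap]

lemma K_pos : 0 < K := Real.exp_pos _

lemma bddAbove_disk (q : ℂ[X]) :
    BddAbove ((fun z : ℂ => ‖q.eval z‖) '' Metric.closedBall (0 : ℂ) 1) := by
  apply IsCompact.bddAbove_image (isCompact_closedBall _ _)
  exact (Continuous.norm (by fun_prop)).continuousOn

lemma le_diskNorm (q : ℂ[X]) (z : ℂ) (hz : ‖z‖ ≤ 1) : ‖q.eval z‖ ≤ diskNorm q := by
  apply le_csSup (bddAbove_disk q)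
  exact ⟨z, by simpa using hz, rfl⟩

lemma coeff_le (p : ℂ[X]) (j : ℕ) (hj : j ≤ p.natDegree) :
    ‖p.coeff j‖ ≤ bombieriNorm p * p.natDegree.choose j := by
  have h : ‖p.coeff j‖ / (p.natDegree.choose j : ℝ) ≤ bombieriNorm p := by
    exact le_ciSup (f := fun j : Fin (p.natDegree + 1) =>
      ‖p.coeff j‖ / (p.natDegree.choose j : ℝ)) (Set.finite_range _).bddAbove
      ⟨j, Nat.lt_succ_of_le hj⟩
  have hpos : (0 : ℝ) < p.natDegree.choose j := by
    exact_mod_cast Nat.choose_pos hj
  exact (div_le_iff₀ hpos).mp h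

lemma one_le_bombieri (p : ℂ[X]) (hp : p.Monic) : 1 ≤ bombieriNorm p := by
  have := coeff_le p p.natDegree le_rfl
  rw [hp.coeff_natDegree] at this
  simpa using this

lemma ratio_le (n : ℕ) (p q : ℂ[X]) (hp : p.Monic) (hn : p.natDegree = n) (hq : q.Monic)
    (hqp : q ∣ p) : diskNorm q / bombieriNorm p ≤ K ^ n := by
  have hB := one_le_bombieri p hp
  rw [div_le_iff₀ (by linarith), mul_comm, K_eq]
  have hbd : ∀ w : ℂ, ‖w‖ = 1 → ‖q.eval w‖ ≤ bombieriNorm p * Real.exp lam ^ n := by
    intro w hw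
    refine (upper_aux p q hp hq hqp w).trans ?_
    apply upper_mahler n p hp hn _ _ w hw
    intro j hj
    have := coeff_le p j (by omega)
    rwa [hn] at this
  apply csSup_le
  · exact ⟨_, ⟨0, by simp, rfl⟩⟩
  · rintro x ⟨z, hz, rfl⟩
    simp only
    have hd : DiffContOnCl ℂ (fun z : ℂ => q.eval z) (Metric.ball (0 : ℂ) 1) :=
      (Polynomial.differentiable q).diffContOnCl
    have hmax := Complex.norm_le_of_forall_mem_frontier_norm_le
      (f := fun z : ℂ => q.eval z) (U := Metric.ball (0 : ℂ) 1)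
      (C := bombieriNorm p * Real.exp lam ^ n) Metric.isBounded_ball hd
    apply hmax
    · intro w hw
      rw [frontier_ball (0 : ℂ) one_ne_zero] at hw
      apply hbd
      simpa using hw
    · rw [closure_ball (0 : ℂ) one_ne_zero]
      exact hz

lemma bddAbove_ratios (n : ℕ) : BddAbove (ratios n) := by
  refine ⟨K ^ n, ?_⟩
  rintro r ⟨p, q, hp, hn, hq, hqp, rfl⟩
  exact ratio_le n p q hp hn hq hqp

lemma S_le (n : ℕ) : S n ≤ K ^ n := by
  apply csSup_le
  · refine ⟨diskNorm 1 / bombieriNorm (X ^ n), X ^ n, 1, monic_X_pow n, natDegree_X_pow n,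
      monic_one, one_dvd _, rfl⟩
  · rintro r ⟨p, q, hp, hn, hq, hqp, rfl⟩
    exact ratio_le n p q hp hn hq hqp

lemma le_S (n : ℕ) (hn : 1 ≤ n) : K ^ n / (n + 1) ≤ S n := by
  obtain ⟨p, hp, hdeg, hc, hM⟩ := exists_poly n hn
  obtain ⟨q, hq, hqp, hev⟩ := exists_factor p hp 1
  have hB : bombieriNorm p = 1 := by
    have : ∀ j : Fin (p.natDegree + 1), ‖p.coeff j‖ / (p.natDegree.choose j : ℝ) = 1 := by
      intro j
      have hj : (j : ℕ) ≤ n := by
        have := j.2
        omega
      have h1 : (p.natDegree.choose (j : ℕ) : ℝ) = (n.choose (j : ℕ) : ℝ) := by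
        congr 2
      rw [hc j hj, h1]
      apply div_self
      have := Nat.choose_pos hj
      positivity
    rw [bombieriNorm]
    simp only [this]
    simp
  have hne : p.comp (X + C 1) ≠ 0 := by
    have : (p.comp (X + C (1 : ℂ))).Monic :=
      hp.comp (monic_X_add_C 1) (by rw [natDegree_X_add_C]; exact one_ne_zero)
    exact this.ne_zero
  have h1 : K ^ n / (n + 1) ≤ (p.comp (X + C 1)).mahlerMeasure := by
    rw [mahlerMeasure, if_pos hne, K_eq, ← Real.exp_nat_mul]
    have h2 : (0 : ℝ) < (n : ℝ) + 1 := by positivity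
    calc Real.exp (n * lam) / (n + 1) = Real.exp (n * lam - Real.log (n + 1)) := by
          rw [Real.exp_sub, Real.exp_log h2]
      _ ≤ _ := Real.exp_le_exp.mpr hM
  have h3 : diskNorm q / bombieriNorm p ≤ S n := by
    apply le_csSup (bddAbove_ratios n)
    exact ⟨p, q, hp, hdeg, hq, hqp, rfl⟩
  rw [hB, div_one] at h3
  have h4 := le_diskNorm q 1 (by simp)
  rw [hev] at h4
  exact (h1.trans h4).trans h3

lemma tendsto_S : Filter.Tendsto (fun n : ℕ => (S n) ^ (1 / (n : ℝ))) Filter.atTop (nhds K) := by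
  have hK := K_pos
  have hlow : Filter.Tendsto (fun n : ℕ => (K ^ n / (n + 1)) ^ (1 / (n : ℝ))) Filter.atTop
      (nhds K) := by
    have h1 := tendsto_rpow_div_mul_add 1 1 (-1) (by norm_num)
    have h2 : Filter.Tendsto (fun n : ℕ => (n : ℝ) + 1) Filter.atTop Filter.atTop :=
      Filter.tendsto_atTop_add_const_right _ _ tendsto_natCast_atTop_atTop
    have h3 := h1.comp h2
    have h4 : Filter.Tendsto (fun n : ℕ => K / (((n : ℝ) + 1) ^ (1 / (n : ℝ)))) Filter.atTop
        (nhds (K / 1)) := by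
      apply Filter.Tendsto.div tendsto_const_nhds _ one_ne_zero
      refine h3.congr ?_
      intro n
      simp only [Function.comp]
      congr 2
      ring
    rw [div_one] at h4
    refine h4.congr' ?_
    filter_upwards [Filter.eventually_ge_atTop 1] with n hn
    rw [Real.div_rpow (by positivity) (by positivity), one_div,
      Real.pow_rpow_inv_natCast hK.le (by omega)]
  have hup : Filter.Tendsto (fun n : ℕ => (K ^ n) ^ (1 / (n : ℝ))) Filter.atTop (nhds K) := by
    apply tendsto_const_nhds.congr'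
    filter_upwards [Filter.eventually_ge_atTop 1] with n hn
    rw [one_div, Real.pow_rpow_inv_natCast hK.le (by omega)]
  apply tendsto_of_tendsto_of_tendsto_of_le_of_le' hlow hup
  · filter_upwards [Filter.eventually_ge_atTop 1] with n hn
    apply Real.rpow_le_rpow (by positivity) (le_S n hn) (by positivity)
  · filter_upwards [Filter.eventually_ge_atTop 1] with n hn
    have h0 : 0 ≤ S n := le_trans (by positivity) (le_S n hn)
    apply Real.rpow_le_rpow h0 (S_le n) (by positivity)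

/-- The constant `K` is sharp: `K ^ n / (n + 1) ≤ S_n ≤ K ^ n` for every `n ≥ 1`, and so
`limsup S_n ^ (1/n) = K`. -/
theorem result :
    (∀ n : ℕ, 1 ≤ n → BddAbove (ratios n) ∧ K ^ n / (n + 1) ≤ S n ∧ S n ≤ K ^ n) ∧
    Filter.limsup (fun n : ℕ => (S n) ^ (1 / (n : ℝ))) Filter.atTop = K :=
  ⟨fun n hn => ⟨bddAbove_ratios n, le_S n hn, S_le n⟩, tendsto_S.limsup_eq⟩

end Pool.Agent.Results.MP_6d4084_an.BombieriSharp
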